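import Pool.Agent.Q187.PS.Transfer
import Pool.Agent.Q187.PS.LimF
import Pool.Agent.Q187.PS.Prof
import Pool.Agent.Q187.PS.Evol
import Pool.Agent.Q187.PS.BallP
import Pool.Agent.Q224.PS.Gen
import Pool.Agent.Q224.PS.Mom
import Pool.Agent.Q224.PS.Cont
import Pool.Agent.Q298.PS.Nu
import Pool.Agent.Q298.PS.Sum
import Pool.Agent.Q298.PS.Sprd
import Pool.Agent.Q298.PS.Zero
import Pool.Agent.Q298.PS.Area
import Pool.Agent.Q195.PS.Efin
import Pool.Agent.Q199.PS.Mink
import Pool.Agent.Q299.PS.Rad
import Pool.Agent.Q299.PS.Ibp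
import Pool.Agent.Q299.PS.LowB
import Pool.Agent.Q195.PS.Appr
import Pool.Agent.Q251.PS.LowC
import Pool.Agent.Q49.PS.STRT
import Pool.Agent.Q49.PS.LOWA

/-!
# MP_37896c_gt: the perimeter need not converge along iterated Steiner symmetrizations

For every `n ≥ 3` there are a compact set `E ⊆ ℝⁿ` of finite perimeter with nonempty interior and
unit vectors `u_1, u_2, ...` such that the iterated Steiner symmetrals `E_i` converge to the ball
`E⋆` (centred, of the same volume) in the Hausdorff distance, but `P(E_i) ≥ P(E⋆) + δ` for all `i`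
with a fixed `δ > 0`.

Idea of the proof.  Write `ℝⁿ = ℝ² × ℝ^m`.  There is a Lipschitz function `g` with compact support
on the plane, with `|{g ≥ s}| = π (18 - s)` for `0 < s ≤ 18`, whose gradient vanishes on a set of
positive area on which its distribution is nevertheless absolutely continuous (a co-area irregular
function in the sense of Almgren and Lieb); it is a function of
`2 |β(x)| + |β(y)|`, where `β` is a `1`-Lipschitz homeomorphism of the line which transports Lebesgue
measure to the sum of Lebesgue measure and the singular measure `ν` of random base four digits in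
`{0, 1}`, and `2ν * ν` is uniform.  For the Steiner symmetrization of `g` in a direction of the plane
that is generic for `g` (all but countably many are) the area of the critical points at heights in a
given set does not go down: the image of the other part of the graph under the projection along the
direction is dealt with by Sard's lemma for Lipschitz maps.  A greedy choice of generic directions
makes the functions `g_i` converge uniformly to `(18 - |v|²)₊`.  The sets
`E_i = {(v, w) : |w|² + 9 ≤ g_i(v)}` are Steiner symmetrals of each other and converge to the ball of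
radius `3`.  A test vector field that is close to `x / 3` outside, and close to `w / |w|` over, the
critical points shows that their perimeters exceed that of the ball by a fixed amount.
-/

set_option autoImplicit false

open MeasureTheory Set Filter Topology Metric
open scoped RealInnerProductSpace ENNReal Pointwise

namespace Pool.Agent.Results.MP_37896c_gt.PerimeterGap

/-- The Steiner symmetral `S_u E`: every nonempty section `E ∩ (x' + ℝ u)`, `x' ⊥ u`, is replaced
by the closed segment `{x' + t u : |t| ≤ ℓ(x') / 2}`, where `ℓ(x')` is the one-dimensional measure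
of the section, i.e. of `{s | x' + s u ∈ E}`. -/
def steiner {n : ℕ} (u : EuclideanSpace ℝ (Fin n)) (E : Set (EuclideanSpace ℝ (Fin n))) :
    Set (EuclideanSpace ℝ (Fin n)) :=
  {y | ∃ (x' : EuclideanSpace ℝ (Fin n)) (t : ℝ), ⟪x', u⟫ = 0 ∧ (∃ s : ℝ, x' + s • u ∈ E) ∧
    |t| ≤ (volume {s : ℝ | x' + s • u ∈ E}).toReal / 2 ∧ y = x' + t • u}

/-- The iterated symmetrals: `E_0 = E` and `E_{i+1} = S_{u_{i+1}} E_i`; the direction `u_{i+1}` is
`u i`. -/
def iterate {n : ℕ} (u : ℕ → EuclideanSpace ℝ (Fin n)) (E : Set (EuclideanSpace ℝ (Fin n))) :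
    ℕ → Set (EuclideanSpace ℝ (Fin n))
  | 0 => E
  | i + 1 => steiner (u i) (iterate u E i)

/-- The Hausdorff distance: the least `lam ≥ 0` with `E ⊆ F + lam Bⁿ` and `F ⊆ E + lam Bⁿ`. -/
noncomputable def dH {n : ℕ} (E F : Set (EuclideanSpace ℝ (Fin n))) : ℝ :=
  sInf {lam : ℝ | 0 ≤ lam ∧ E ⊆ F + closedBall 0 lam ∧ F ⊆ E + closedBall 0 lam}

/-- The perimeter `P(E) = |D χ_E|(ℝⁿ)`: the supremum of `∫_E div φ` over all continuously
differentiable vector fields `φ` with compact support and `|φ| ≤ 1` everywhere. -/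
noncomputable def perimeter {n : ℕ} (E : Set (EuclideanSpace ℝ (Fin n))) : ℝ≥0∞ :=
  ⨆ (φ : EuclideanSpace ℝ (Fin n) → EuclideanSpace ℝ (Fin n)) (_ : ContDiff ℝ 1 φ)
    (_ : HasCompactSupport φ) (_ : ∀ x, ‖φ x‖ ≤ 1),
    ENNReal.ofReal (∫ x in E, ∑ i, fderiv ℝ φ x (EuclideanSpace.single i 1) i)

lemma steiner_eq {n : ℕ} (u : EuclideanSpace ℝ (Fin n)) (E : Set (EuclideanSpace ℝ (Fin n))) :
    steiner u E = Pool.Agent.H318R3.St.sym u E := by
  ext y
  constructor
  · rintro ⟨x, t, h1, h2, h3, h4⟩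
    exact ⟨x, t, h4, h1, h2, by
      have : (volume {s : ℝ | x + s • u ∈ E}).toReal =
        (volume (Pool.Agent.H318R3.St.chord u x E)).toReal := rfl
      linarith⟩
  · rintro ⟨x, t, h4, h1, h2, h3⟩
    exact ⟨x, t, h1, h2, by
      have : (volume {s : ℝ | x + s • u ∈ E}).toReal =
        (volume (Pool.Agent.H318R3.St.chord u x E)).toReal := rfl
      linarith, h4⟩

lemma iterate_eq {n : ℕ} (u : ℕ → EuclideanSpace ℝ (Fin n))
    (E : Set (EuclideanSpace ℝ (Fin n))) (i : ℕ) : iterate u E i = Q187.Steiner.iter u E i := by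
  induction i with
  | zero => rfl
  | succ i ih =>
    show steiner (u i) (iterate u E i) = Pool.Agent.H318R3.St.sym (u i) (Q187.Steiner.iter u E i)
    rw [steiner_eq, ih]

lemma dH_le {n : ℕ} {E F : Set (EuclideanSpace ℝ (Fin n))} {lam : ℝ} (h0 : 0 ≤ lam)
    (h1 : E ⊆ F + closedBall 0 lam) (h2 : F ⊆ E + closedBall 0 lam) : dH E F ≤ lam := by
  apply csInf_le
  · exact ⟨0, fun x hx => hx.1⟩
  · exact ⟨h0, h1, h2⟩

lemma dH_nonneg {n : ℕ} (E F : Set (EuclideanSpace ℝ (Fin n))) : 0 ≤ dH E F :=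
  Real.sInf_nonneg fun x hx => hx.1

lemma trace_eq {n : ℕ} (A : EuclideanSpace ℝ (Fin n) →L[ℝ] EuclideanSpace ℝ (Fin n)) :
    LinearMap.trace ℝ _ (A : EuclideanSpace ℝ (Fin n) →ₗ[ℝ] EuclideanSpace ℝ (Fin n)) =
      ∑ i, A (EuclideanSpace.single i 1) i := by
  rw [LinearMap.trace_eq_matrix_trace ℝ (EuclideanSpace.basisFun (Fin n) ℝ).toBasis, Matrix.trace]
  refine Finset.sum_congr rfl fun i _ => ?_
  rw [Matrix.diag_apply, LinearMap.toMatrix_apply]
  simp

lemma perimeter_eq {n : ℕ} (E : Set (EuclideanSpace ℝ (Fin n))) :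
    perimeter E = Q187.PS.per E := by
  unfold perimeter Q187.PS.per
  simp_rw [trace_eq]

/-- From nested balls to the Hausdorff distance. -/
lemma dH_balls {n : ℕ} {E : Set (EuclideanSpace ℝ (Fin n))} {R ε : ℝ} (hε : 0 < ε)
    (hεR : ε < R) (h1 : closedBall (0 : EuclideanSpace ℝ (Fin n)) (R - ε) ⊆ E)
    (h2 : E ⊆ closedBall 0 (R + ε)) : dH E (closedBall 0 R) ≤ ε := by
  -- scaling moves the points of a ball into a smaller one
  have key : ∀ (a b : ℝ), 0 < a → 0 < b → b - a ≤ ε →
      closedBall (0 : EuclideanSpace ℝ (Fin n)) b ⊆ closedBall 0 a + closedBall 0 ε := by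
    intro a b ha hb hab x hx
    rw [mem_closedBall_zero_iff] at hx
    rcases le_or_gt ‖x‖ a with h | h
    · exact ⟨x, mem_closedBall_zero_iff.2 h, 0, mem_closedBall_zero_iff.2 (by simpa using hε.le),
        add_zero _⟩
    · have hx0 : 0 < ‖x‖ := ha.trans h
      refine ⟨(a / ‖x‖) • x, ?_, (1 - a / ‖x‖) • x, ?_, ?_⟩
      · rw [mem_closedBall_zero_iff, norm_smul, Real.norm_eq_abs, abs_of_pos (by positivity),
          div_mul_cancel₀ _ hx0.ne']
      · have h3 : 0 ≤ 1 - a / ‖x‖ := by
          rw [sub_nonneg, div_le_one hx0]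
          exact h.le
        rw [mem_closedBall_zero_iff, norm_smul, Real.norm_eq_abs, abs_of_nonneg h3, sub_mul,
          one_mul, div_mul_cancel₀ _ hx0.ne']
        linarith
      · show (a / ‖x‖) • x + (1 - a / ‖x‖) • x = x
        rw [← add_smul]
        simp
  refine dH_le hε.le ?_ ?_
  · exact h2.trans (key R (R + ε) (by linarith) (by linarith) (by linarith))
  · exact (key (R - ε) R (by linarith) (by linarith) (by linarith)).trans
      (add_subset_add_right h1)

/-- The theorem from its abstract form. -/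
theorem of_main {n : ℕ} (h : Q187.PS.Main (EuclideanSpace ℝ (Fin n))) :
    ∃ (E : Set (EuclideanSpace ℝ (Fin n))) (u : ℕ → EuclideanSpace ℝ (Fin n)) (R δ : ℝ),
      IsCompact E ∧ (interior E).Nonempty ∧ perimeter E < ⊤ ∧ (∀ i, ‖u i‖ = 1) ∧ 0 < R ∧
      volume (closedBall (0 : EuclideanSpace ℝ (Fin n)) R) = volume E ∧
      Tendsto (fun i => dH (iterate u E i) (closedBall 0 R)) atTop (𝓝 0) ∧ 0 < δ ∧
      (∀ i, perimeter (closedBall (0 : EuclideanSpace ℝ (Fin n)) R) + ENNReal.ofReal δ ≤
        perimeter (iterate u E i)) ∧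
      ¬ Tendsto (fun i => perimeter (iterate u E i)) atTop
        (𝓝 (perimeter (closedBall (0 : EuclideanSpace ℝ (Fin n)) R))) := by
  obtain ⟨E, u, δ, h1, h2, h3, h4, h5, h6, h7, h8⟩ := h
  have hge : ∀ i, perimeter (closedBall (0 : EuclideanSpace ℝ (Fin n)) 3) + ENNReal.ofReal δ ≤
      perimeter (iterate u E i) := by
    intro i
    rw [perimeter_eq, perimeter_eq, iterate_eq]
    exact h8 i
  have hfin : perimeter E < ⊤ := by
    rw [perimeter_eq]
    exact h4
  have hball : perimeter (closedBall (0 : EuclideanSpace ℝ (Fin n)) 3) < ⊤ :=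
    (le_self_add.trans (hge 0)).trans_lt hfin
  refine ⟨E, u, 3, δ, h2, h3, hfin, h5, by norm_num, h6.symm, ?_, h1, hge, ?_⟩
  · rw [Metric.tendsto_atTop]
    intro ε hε
    set κ : ℝ := min (ε / 2) 1 with hκ
    have hκ0 : 0 < κ := lt_min (by positivity) one_pos
    have hκ1 : κ ≤ 1 := min_le_right _ _
    have hκε : κ ≤ ε / 2 := min_le_left _ _
    obtain ⟨N, hN⟩ := eventually_atTop.1 (h7 κ hκ0)
    refine ⟨N, fun i hi => ?_⟩
    have h9 := hN i hi
    rw [← iterate_eq] at h9
    have h10 := dH_balls hκ0 (by linarith) h9.1 h9.2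
    rw [Real.dist_eq, sub_zero, abs_of_nonneg (dH_nonneg _ _)]
    linarith
  · intro hcon
    have h9 := ge_of_tendsto' hcon hge
    have h10 : perimeter (closedBall (0 : EuclideanSpace ℝ (Fin n)) 3) <
        perimeter (closedBall (0 : EuclideanSpace ℝ (Fin n)) 3) + ENNReal.ofReal δ :=
      ENNReal.lt_add_right hball.ne (ENNReal.ofReal_pos.2 h1).ne'
    exact absurd h9 (not_le.2 h10)

/-- **The perimeter need not converge along iterated Steiner symmetrizations**, for every
`n ≥ 3`. -/
theorem result (n : ℕ) (hn : 3 ≤ n) :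
    ∃ (E : Set (EuclideanSpace ℝ (Fin n))) (u : ℕ → EuclideanSpace ℝ (Fin n)) (R δ : ℝ),
      IsCompact E ∧ (interior E).Nonempty ∧ perimeter E < ⊤ ∧ (∀ i, ‖u i‖ = 1) ∧ 0 < R ∧
      volume (closedBall (0 : EuclideanSpace ℝ (Fin n)) R) = volume E ∧
      Tendsto (fun i => dH (iterate u E i) (closedBall 0 R)) atTop (𝓝 0) ∧ 0 < δ ∧
      (∀ i, perimeter (closedBall (0 : EuclideanSpace ℝ (Fin n)) R) + ENNReal.ofReal δ ≤
        perimeter (iterate u E i)) ∧
      ¬ Tendsto (fun i => perimeter (iterate u E i)) atTop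
        (𝓝 (perimeter (closedBall (0 : EuclideanSpace ℝ (Fin n)) R))) := by
  refine of_main (Q187.PS.main_euclid hn fun m hm => ?_)
  have hSum := Pool.Agent.Q298.PS.sum
  have hMink := Pool.Agent.Q199.PS.mink
  exact Q187.PS.main_XX hm
    (Q187.PS.seq Q224.PS.gen Q224.PS.mom Q224.PS.cont Q187.PS.lim Q187.PS.prof)
    Pool.Agent.Q298.PS.nu hSum Pool.Agent.Q298.PS.sprd
    (Q49.PS.strt Pool.Agent.Q298.PS.zero (Pool.Agent.Q298.PS.area hSum))
    (Q187.PS.ball hMink) Q187.PS.evol (Pool.Agent.Q195.PS.efin hMink Q187.PS.evol)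
    (Pool.Agent.Q251.PS.lowC Pool.Agent.Q195.PS.appr Q49.PS.lowA Pool.Agent.Q299.PS.lowB)
    Q187.PS.esym

end Pool.Agent.Results.MP_37896c_gt.PerimeterGap
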